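import Pool.Agent.Run7.h914.App

/-!
Almost primes of the form `n ^ k + m ^ k + 1`.

For every `k ≥ 3` there are `≫ X ^ 2 / log X` pairs `(n, m)` in `[1, X] ^ 2` such that
`n ^ k + m ^ k + 1` has no prime factor below `X ^ (1 / 4)`, at most `k` prime factors counted with
multiplicity and at most `⌊3 k / 4⌋ + 1` distinct prime factors.

Ingredients (all proved in `Pool/Agent/Run7/h914`): Weil's bound for the exponential sums along the
curve `x ^ k + y ^ k + 1 = 0` modulo `p` (Rec, Van, Log, Irr, Pts, Cov, Exp), equidistribution of the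
pairs modulo squarefree numbers up to `X ^ (4 / 3 - δ)` (Box, Loc, Ra), a weighted linear sieve
(Mert, Fun, Sv, Ws), and a count of the values divisible by the square of a prime (Sq).
-/

set_option autoImplicit false

open Classical in
/-- **Almost primes `n ^ k + m ^ k + 1`.** -/
theorem Pool.Agent.Results.MP_a22760_nt.AlmostPrimes.result (k : ℕ) (hk : 3 ≤ k) :
    ∃ c : ℝ, 0 < c ∧ ∃ X₀ : ℕ, ∀ X : ℕ, X₀ ≤ X →
      c * (X : ℝ) ^ 2 / Real.log X ≤
        (((Finset.Icc 1 X ×ˢ Finset.Icc 1 X).filter (fun x : ℕ × ℕ =>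
          (∀ p : ℕ, p.Prime → p ∣ x.1 ^ k + x.2 ^ k + 1 → (X : ℝ) ^ (1 / 4 : ℝ) ≤ p) ∧
          (x.1 ^ k + x.2 ^ k + 1).primeFactors.card ≤ 3 * k / 4 + 1 ∧
          ArithmeticFunction.cardFactors (x.1 ^ k + x.2 ^ k + 1) ≤ k)).card : ℝ) := by
  obtain ⟨c, hc, X₀, H⟩ := Run7.h914.main (k := k) (by omega)
  refine ⟨c, hc, X₀, fun X hX => ?_⟩
  have h := H X hX
  have e : (Finset.Icc 1 X ×ˢ Finset.Icc 1 X).filter (Run7.h914.PK k X) =
      (Finset.Icc 1 X ×ˢ Finset.Icc 1 X).filter (fun x : ℕ × ℕ =>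
          (∀ p : ℕ, p.Prime → p ∣ x.1 ^ k + x.2 ^ k + 1 → (X : ℝ) ^ (1 / 4 : ℝ) ≤ p) ∧
          (x.1 ^ k + x.2 ^ k + 1).primeFactors.card ≤ 3 * k / 4 + 1 ∧
          ArithmeticFunction.cardFactors (x.1 ^ k + x.2 ^ k + 1) ≤ k) :=
    Finset.filter_congr fun x _ => Iff.rfl
  rw [e] at h
  exact h
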